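import Pool.Agent.Helper30.LQ.St

/-!
# Project LQ (MP_d57c14_nt), module FND: Chinese remainder theorem and sizes

Adapted from `Pool/Agent/Helper88/LK/M_FN2.lean`.
-/

set_option autoImplicit false

noncomputable section

namespace Pool.Agent.Helper7.LQ

open Finset Filter
open Pool.Agent.Helper30.LQ

/-- the primes up to `x` -/
private def Pr (x : ℕ) : Finset ℕ := (Icc 1 x).filter Nat.Prime

private theorem mem_Pr (x l : ℕ) : l ∈ Pr x ↔ l.Prime ∧ l ≤ x := by
  unfold Pr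
  rw [mem_filter, mem_Icc]
  constructor
  · rintro ⟨⟨_, h2⟩, h3⟩
    exact ⟨h3, h2⟩
  · rintro ⟨h3, h2⟩
    exact ⟨⟨h3.one_lt.le, h2⟩, h3⟩

private theorem crt (x : ℕ) (r : ℕ → ℕ) : ∃ n : ℕ, ∏ l ∈ Pr x, l ≤ n ∧ n < 2 * ∏ l ∈ Pr x, l ∧
    ∀ l : ℕ, l.Prime → l ≤ x → n ≡ r l [MOD l] := by
  classical
  have hs : ∀ i ∈ Pr x, (id i : ℕ) ≠ 0 := fun i hi => ((mem_Pr x i).1 hi).1.ne_zero
  have pp : Set.Pairwise (↑(Pr x)) (Function.onFun Nat.Coprime (id : ℕ → ℕ)) := by
    intro a ha b hb hab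
    exact (Nat.coprime_primes ((mem_Pr x a).1 (Finset.mem_coe.1 ha)).1
      ((mem_Pr x b).1 (Finset.mem_coe.1 hb)).1).2 hab
  obtain ⟨k, hk⟩ := Nat.chineseRemainderOfFinset r id (Pr x) hs pp
  have hP : 0 < ∏ l ∈ Pr x, l := Finset.prod_pos fun i hi => ((mem_Pr x i).1 hi).1.pos
  refine ⟨k % (∏ l ∈ Pr x, l) + ∏ l ∈ Pr x, l, Nat.le_add_left _ _, ?_, ?_⟩
  · have := Nat.mod_lt k hP
    omega
  · intro l hl hlx
    have hm : l ∈ Pr x := (mem_Pr x l).2 ⟨hl, hlx⟩
    have hd : l ∣ ∏ l ∈ Pr x, l := Finset.dvd_prod_of_mem _ hm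
    have h1 : k % (∏ l ∈ Pr x, l) + ∏ l ∈ Pr x, l ≡ k [MOD l] := by
      have e1 : k % (∏ l ∈ Pr x, l) ≡ k [MOD l] := (Nat.mod_modEq k _).of_dvd hd
      have e2 : ∏ l ∈ Pr x, l ≡ 0 [MOD l] := (Nat.modEq_zero_iff_dvd).2 hd
      simpa using e1.add e2
    exact h1.trans (hk l hm)

private theorem Pr_le (x : ℕ) : ∏ l ∈ Pr x, l ≤ 4 ^ x := by
  refine le_trans ?_ (primorial_le_four_pow x)
  unfold primorial
  apply Finset.prod_le_prod_of_subset_of_one_le'
  · intro l hl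
    obtain ⟨h1, h3⟩ := (mem_Pr x l).1 hl
    rw [mem_filter, mem_range]
    exact ⟨by omega, h1⟩
  · intro l hl _
    rw [mem_filter] at hl
    exact hl.2.one_lt.le

private theorem Pr_ge (x : ℕ) (hx : 4 ≤ x) (S : Finset ℕ)
    (hS : ∀ l ∈ S, l.Prime ∧ x / 2 < l ∧ l ≤ x) :
    (S.card : ℝ) * Real.log ((x : ℝ) / 2) ≤ Real.log ((∏ l ∈ Pr x, l : ℕ) : ℝ) := by
  have hsub : S ⊆ Pr x := by
    intro l hl
    obtain ⟨h1, h2, h3⟩ := hS l hl
    rw [mem_Pr]
    exact ⟨h1, h3⟩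
  rw [Nat.cast_prod, Real.log_prod]
  · calc (S.card : ℝ) * Real.log ((x : ℝ) / 2) = ∑ _l ∈ S, Real.log ((x : ℝ) / 2) := by
          rw [Finset.sum_const, nsmul_eq_mul]
      _ ≤ ∑ l ∈ S, Real.log (l : ℝ) := by
          apply Finset.sum_le_sum
          intro l hl
          obtain ⟨h1, h2, h3⟩ := hS l hl
          apply Real.log_le_log
          · have : (4 : ℝ) ≤ x := by exact_mod_cast hx
            linarith
          · have h4 : x ≤ 2 * l := by omega
            have h5 : (x : ℝ) ≤ 2 * l := by exact_mod_cast h4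
            linarith
      _ ≤ ∑ l ∈ Pr x, Real.log (l : ℝ) := by
          apply Finset.sum_le_sum_of_subset_of_nonneg hsub
          intro l _ _
          exact Real.log_natCast_nonneg l
  · intro l hl
    have := ((mem_Pr x l).1 hl).1.ne_zero
    exact_mod_cast this

private theorem root (l : ℕ) (hl : l.Prime) (h3 : l % 3 = 1) :
    ∃ ρ : ℕ, (l : ℤ) ∣ (ρ : ℤ) ^ 2 - ρ + 1 := by
  haveI : Fact l.Prime := ⟨hl⟩
  haveI : Fact (Nat.Prime 3) := ⟨Nat.prime_three⟩
  have hd : 3 ∣ Fintype.card (ZMod l)ˣ := by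
    rw [ZMod.card_units_eq_totient, Nat.totient_prime hl]
    omega
  obtain ⟨u, hu⟩ := exists_prime_orderOf_dvd_card 3 hd
  have h1 : (u : ZMod l) ^ 3 = 1 := by
    rw [← Units.val_pow_eq_pow_val, ← hu, pow_orderOf_eq_one, Units.val_one]
  have h2 : (u : ZMod l) ≠ 1 := by
    intro h
    have : u = 1 := Units.ext h
    rw [this, orderOf_one] at hu
    omega
  have h4 : (u : ZMod l) ^ 2 + u + 1 = 0 := by
    have : ((u : ZMod l) - 1) * ((u : ZMod l) ^ 2 + u + 1) = 0 := by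
      linear_combination h1
    rcases mul_eq_zero.1 this with h | h
    · exact absurd (sub_eq_zero.1 h) h2
    · exact h
  refine ⟨(-(u : ZMod l)).val, ?_⟩
  rw [← ZMod.intCast_zmod_eq_zero_iff_dvd]
  push_cast
  rw [ZMod.natCast_zmod_val]
  linear_combination h4

/-- all conditions on `x` hold for large `x` -/
private theorem large (M : ℝ) (a b : ℕ) : ∃ x : ℕ, a ≤ x ∧ b ≤ x ∧ 6 ≤ x ∧
    M ≤ Real.log x ∧ 2 * Real.log 100 ≤ Real.log x ∧ 2 ≤ Real.log (Real.log x) ∧
    1 ≤ Real.log (Real.log (Real.log x)) ∧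
    Real.log (Real.log x) ^ 2 ≤ √(Real.log x) ∧ 2 * Real.log x + 1 ≤ (x : ℝ) / 100 := by
  have hlog : Tendsto (fun x : ℕ => Real.log (x : ℝ)) atTop atTop :=
    Real.tendsto_log_atTop.comp tendsto_natCast_atTop_atTop
  have hll : Tendsto (fun x : ℕ => Real.log (Real.log (x : ℝ))) atTop atTop :=
    Real.tendsto_log_atTop.comp hlog
  have hlll : Tendsto (fun x : ℕ => Real.log (Real.log (Real.log (x : ℝ)))) atTop atTop :=
    Real.tendsto_log_atTop.comp hll
  have e1 : ∀ᶠ x : ℕ in atTop, a ≤ x := eventually_ge_atTop a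
  have e2 : ∀ᶠ x : ℕ in atTop, b ≤ x := eventually_ge_atTop b
  have e3 : ∀ᶠ x : ℕ in atTop, 6 ≤ x := eventually_ge_atTop 6
  have e4 : ∀ᶠ x : ℕ in atTop, M ≤ Real.log x := hlog.eventually_ge_atTop _
  have e5 : ∀ᶠ x : ℕ in atTop, 2 * Real.log 100 ≤ Real.log x := hlog.eventually_ge_atTop _
  have e6 : ∀ᶠ x : ℕ in atTop, 2 ≤ Real.log (Real.log x) := hll.eventually_ge_atTop _
  have e6' : ∀ᶠ x : ℕ in atTop, 1 ≤ Real.log (Real.log (Real.log x)) := hlll.eventually_ge_atTop _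
  have e7 : ∀ᶠ x : ℕ in atTop, Real.log (Real.log x) ^ 2 ≤ √(Real.log x) := by
    have h := (isLittleO_log_rpow_atTop (r := 1 / 4) (by norm_num)).bound (c := 1) one_pos
    have h' := hlog.eventually h
    filter_upwards [h', e6] with x hx h6
    have hx0 : (0 : ℝ) ≤ Real.log x := Real.log_natCast_nonneg x
    rw [one_mul, Real.norm_eq_abs, Real.norm_eq_abs,
      abs_of_nonneg (by linarith), abs_of_nonneg (Real.rpow_nonneg hx0 _)] at hx
    calc Real.log (Real.log x) ^ 2 ≤ (Real.log x ^ (1 / 4 : ℝ)) ^ 2 :=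
          pow_le_pow_left₀ (by linarith) hx 2
      _ = √(Real.log x) := by
          rw [Real.sqrt_eq_rpow, ← Real.rpow_natCast, ← Real.rpow_mul hx0]
          norm_num
  have e8 : ∀ᶠ x : ℕ in atTop, 2 * Real.log x + 1 ≤ (x : ℝ) / 100 := by
    have h := (Real.isLittleO_log_id_atTop).bound (c := 1 / 400) (by norm_num)
    have h' := tendsto_natCast_atTop_atTop (R := ℝ) |>.eventually h
    filter_upwards [h', eventually_ge_atTop 200] with x hx h64
    have hx0 : (0 : ℝ) ≤ x := Nat.cast_nonneg x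
    rw [Real.norm_eq_abs, Real.norm_eq_abs, abs_of_nonneg (Real.log_natCast_nonneg x)] at hx
    simp only [id] at hx
    rw [abs_of_nonneg hx0] at hx
    have h65 : (200 : ℝ) ≤ x := by exact_mod_cast h64
    linarith
  obtain ⟨x, h1, h2, h3, h4, h5, h6, h6', h7, h8⟩ :=
    (e1.and (e2.and (e3.and (e4.and (e5.and (e6.and (e6'.and (e7.and e8)))))))).exists
  exact ⟨x, h1, h2, h3, h4, h5, h6, h6', h7, h8⟩

/-- **FND.** -/
theorem hFND (hS : StSUR) (hP : Pool.Agent.Helper30.PB.StPIP) : StFND := by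
  classical
  obtain ⟨C, hC, x₀, hSur⟩ := hS
  obtain ⟨Y₀, hPr⟩ := hP 3 (by norm_num)
  set c₁ : ℝ := min 1 (1 / (200 * C)) with hc₁
  have hc0 : 0 < c₁ := lt_min one_pos (by positivity)
  have hc1 : c₁ ≤ 1 := min_le_left _ _
  have hc2 : C * c₁ ≤ 1 / 200 := by
    have := min_le_right 1 (1 / (200 * C))
    calc C * c₁ ≤ C * (1 / (200 * C)) := mul_le_mul_of_nonneg_left this hC.le
      _ = 1 / 200 := by field_simp
  refine ⟨c₁ / 1280, by positivity, fun n₀ => ?_⟩
  obtain ⟨x, hx1, hx2, hx6, hxM, hx4, hx5, hx5', hx7, hx8⟩ :=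
    large (max (200 * C) ((20 / c₁) ^ 2)) (max x₀ Y₀) n₀
  have hxx0 : x₀ ≤ x := le_trans (le_max_left _ _) hx1
  have hxY : Y₀ ≤ x := le_trans (le_max_right _ _) hx1
  have hLC : 200 * C ≤ Real.log x := le_trans (le_max_left _ _) hxM
  have hLc : (20 / c₁) ^ 2 ≤ Real.log x := le_trans (le_max_right _ _) hxM
  set L : ℝ := Real.log x with hL
  set L2 : ℝ := Real.log L with hL2
  set L3 : ℝ := Real.log L2 with hL3
  have hx0 : (0 : ℝ) < x := by exact_mod_cast (by omega : 0 < x)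
  have hL20 : 0 < L2 := by linarith
  have hL30 : 0 < L3 := by linarith
  have hL1 : 1 < L := by
    by_contra hcon
    push Not at hcon
    have h0 : 0 ≤ L := Real.log_natCast_nonneg x
    have := Real.log_nonpos h0 hcon
    linarith
  have hL0 : 0 < L := by linarith
  have hL2L : L2 ≤ L := by
    have := Real.log_le_sub_one_of_pos hL0
    linarith
  have hL3L2 : L3 ≤ L2 := by
    have := Real.log_le_sub_one_of_pos hL20
    linarith
  have hlog2 := Real.log_two_lt_d9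
  have hlog2' := Real.log_two_gt_d9
  have hs2 : 0 < √L2 := Real.sqrt_pos.2 hL20
  have hs21 : 1 ≤ √L2 := Real.one_le_sqrt.2 (by linarith)
  have hs2le : √L2 ≤ L2 := by
    rw [Real.sqrt_le_left hL20.le]
    nlinarith
  -- the parameter `y`
  have hlogy : Real.log (yy x) = L * L3 / (20 * L2) := by
    unfold yy
    rw [Real.log_exp]
  set Λ : ℝ := L * L3 / (20 * L2) with hΛ
  have hΛ0 : 0 < Λ := by positivity
  have hΛL : Λ ≤ L / 20 := by
    rw [hΛ, div_le_div_iff₀ (by positivity) (by norm_num)]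
    nlinarith [mul_le_mul_of_nonneg_left hL3L2 hL0.le]
  have hyx : yy x ≤ (x : ℝ) / 2 := by
    have h1 : yy x = Real.exp Λ := rfl
    rw [h1, ← Real.exp_log (show (0 : ℝ) < (x : ℝ) / 2 by positivity), Real.exp_le_exp,
      Real.log_div hx0.ne' two_ne_zero, ← hL]
    have h3 : Real.log 2 ≤ Real.log 100 := Real.log_le_log two_pos (by norm_num)
    linarith
  set A : ℝ := x * Λ / √L2 with hA
  have hA0 : 0 < A := by positivity
  have hAlow : (x : ℝ) ≤ c₁ * A := by
    have h1 : L2 * √L2 ≤ √L := by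
      calc L2 * √L2 ≤ L2 * L2 := mul_le_mul_of_nonneg_left hs2le hL20.le
        _ = L2 ^ 2 := by ring
        _ ≤ √L := hx7
    have h2 : 20 / c₁ ≤ √L := Real.le_sqrt_of_sq_le hLc
    have h3 : 0 < √L := Real.sqrt_pos.2 hL0
    have h4 : √L * √L = L := Real.mul_self_sqrt hL0.le
    have h5 : 20 ≤ c₁ * √L := by
      rw [div_le_iff₀ hc0] at h2
      linarith
    have h6 : 20 * (L2 * √L2) ≤ c₁ * (L * L3) := by
      calc 20 * (L2 * √L2) ≤ 20 * √L := by linarith
        _ ≤ (c₁ * √L) * √L := mul_le_mul_of_nonneg_right h5 h3.le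
        _ = c₁ * (L * 1) := by rw [mul_assoc, h4, mul_one]
        _ ≤ c₁ * (L * L3) := by gcongr
    have e : c₁ * A = x * (c₁ * (L * L3) / (20 * (L2 * √L2))) := by
      rw [hA, hΛ]
      field_simp
    rw [e]
    have h7 : 1 ≤ c₁ * (L * L3) / (20 * (L2 * √L2)) := by
      rw [le_div_iff₀ (by positivity), one_mul]
      exact h6
    calc (x : ℝ) = x * 1 := (mul_one _).symm
      _ ≤ _ := mul_le_mul_of_nonneg_left h7 hx0.le
  have hAup : A ≤ x * L := by
    rw [hA]
    calc x * Λ / √L2 ≤ x * Λ := div_le_self (by positivity) hs21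
      _ ≤ x * L := mul_le_mul_of_nonneg_left (by linarith) hx0.le
  set K : ℕ := ⌊c₁ * A⌋₊ with hK
  have hKle : (K : ℝ) ≤ c₁ * A := Nat.floor_le (by positivity)
  have hKlt : c₁ * A < K + 1 := Nat.lt_floor_add_one _
  have hxK : x ≤ K := Nat.le_floor hAlow
  have hKA : (K : ℝ) ≤ A := by
    calc (K : ℝ) ≤ c₁ * A := hKle
      _ ≤ 1 * A := mul_le_mul_of_nonneg_right hc1 hA0.le
      _ = A := one_mul _
  have hKx : (K : ℝ) ≤ x * Real.log x := hKA.trans hAup
  have hcard := hSur x K hxx0 hxK hKx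
  -- the primes in `(x / 2, x]`
  set S : Finset ℕ := (Ioc (x / 2) x).filter (fun P => P.Prime ∧ P % 3 = 1 % 3) with hSdef
  have hSc : (x : ℝ) / (48 * L) ≤ (S.card : ℝ) := by
    have := hPr (x / 2) x 1 hxY (by omega) (Nat.coprime_one_left 3)
    have e : (x : ℝ) / (16 * (3 : ℕ) * Real.log x) = (x : ℝ) / (48 * L) := by
      rw [← hL]
      norm_num
    rw [e] at this
    exact this
  have hSm : ∀ l ∈ S, l.Prime ∧ x / 2 < l ∧ l ≤ x := by
    intro l hl
    rw [hSdef, mem_filter, mem_Ioc] at hl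
    exact ⟨hl.2.1, hl.1.1, hl.1.2⟩
  have hS3 : ∀ l ∈ S, l % 3 = 1 := by
    intro l hl
    rw [hSdef, mem_filter] at hl
    exact hl.2.2
  have hle : (Sv x K).card ≤ S.card := by
    have h1 : ((Sv x K).card : ℝ) ≤ (x : ℝ) / (48 * L) := by
      have e1 : (K : ℝ) * √L2 / (L * Λ) ≤ c₁ * (x / L) := by
        calc (K : ℝ) * √L2 / (L * Λ) ≤ c₁ * A * √L2 / (L * Λ) := by gcongr
          _ = c₁ * (x / L) := by
              rw [hA]
              field_simp
      have e2 : C * (x / L ^ 2) ≤ 1 / 200 * (x / L) := by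
        have : C * (x / L ^ 2) = C / L * (x / L) := by
          field_simp
        rw [this]
        apply mul_le_mul_of_nonneg_right _ (by positivity)
        rw [div_le_iff₀ hL0]
        linarith
      have hcard' : ((Sv x K).card : ℝ) ≤ C * (K * √L2 / (L * Λ) + x / L ^ 2) := by
        rw [hlogy] at hcard
        exact hcard
      calc ((Sv x K).card : ℝ) ≤ C * (K * √L2 / (L * Λ) + x / L ^ 2) := hcard'
        _ = C * (K * √L2 / (L * Λ)) + C * (x / L ^ 2) := by ring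
        _ ≤ C * (c₁ * (x / L)) + 1 / 200 * (x / L) :=
            add_le_add (mul_le_mul_of_nonneg_left e1 hC.le) e2
        _ = (C * c₁) * (x / L) + 1 / 200 * (x / L) := by ring
        _ ≤ 1 / 200 * (x / L) + 1 / 200 * (x / L) := by
            have := mul_le_mul_of_nonneg_right hc2 (show (0 : ℝ) ≤ x / L by positivity)
            linarith
        _ = 1 / 100 * (x / L) := by ring
        _ ≤ 1 / 48 * (x / L) := mul_le_mul_of_nonneg_right (by norm_num) (by positivity)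
        _ = (x : ℝ) / (48 * L) := by field_simp
    exact_mod_cast h1.trans hSc
  obtain ⟨f, hf1, hf2⟩ : ∃ f : ℕ → ℕ, (∀ m ∈ Sv x K, f m ∈ S) ∧ Set.InjOn f (Sv x K) := by
    obtain ⟨g⟩ := Function.Embedding.nonempty_of_card_le
      (show Fintype.card (Sv x K) ≤ Fintype.card S by simpa using hle)
    refine ⟨fun m => if h : m ∈ Sv x K then (g ⟨m, h⟩ : ℕ) else 0, ?_, ?_⟩
    · intro m hm
      simp only [hm, dif_pos]
      exact (g ⟨m, hm⟩).2
    · intro m hm m' hm' h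
      have hm1 : m ∈ Sv x K := hm
      have hm2 : m' ∈ Sv x K := hm'
      simp only [hm1, hm2, dif_pos] at h
      have := g.injective (Subtype.ext h)
      exact congrArg Subtype.val this
  -- the residues
  obtain ⟨ρ, hρ⟩ : ∃ ρ : ℕ → ℕ, ∀ l : ℕ, l.Prime → l % 3 = 1 →
      (l : ℤ) ∣ (ρ l : ℤ) ^ 2 - ρ l + 1 := by
    refine ⟨fun l => if h : l.Prime ∧ l % 3 = 1 then (root l h.1 h.2).choose else 0, ?_⟩
    intro l hl h3
    have h : l.Prime ∧ l % 3 = 1 := ⟨hl, h3⟩
    simp only [h, dif_pos, and_self]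
    exact (root l hl h3).choose_spec
  let r : ℕ → ℕ := fun l => if h : ∃ m ∈ Sv x K, f m = l then h.choose * ρ l
    else if l % 3 = 1 ∧ (l : ℝ) ≤ yy x then 1 else 0
  have hr1 : ∀ m ∈ Sv x K, r (f m) = m * ρ (f m) := by
    intro m hm
    have h : ∃ m' ∈ Sv x K, f m' = f m := ⟨m, hm, rfl⟩
    have e : h.choose = m := hf2 h.choose_spec.1 hm h.choose_spec.2
    simp only [r, h, dif_pos]
    rw [e]
  have hr0 : ∀ l : ℕ, (2 * l ≤ x ∨ l % 3 ≠ 1) → ¬ ∃ m ∈ Sv x K, f m = l := by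
    rintro l hl ⟨m, hm, rfl⟩
    have h1 := (hSm _ (hf1 m hm)).2.1
    have h2 := hS3 _ (hf1 m hm)
    rcases hl with hl | hl
    · omega
    · exact hl h2
  have hr2 : ∀ l : ℕ, l % 3 = 1 → (l : ℝ) ≤ yy x → 2 * l ≤ x ∧ r l = 1 := by
    intro l h3 hly
    have h1 : 2 * l ≤ x := by
      have : (2 : ℝ) * l ≤ x := by linarith
      exact_mod_cast this
    have h := hr0 l (Or.inl h1)
    refine ⟨h1, ?_⟩
    simp only [r, h, dif_neg, not_false_eq_true]
    rw [if_pos ⟨h3, hly⟩]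
  have hr3 : ∀ l : ℕ, ((l % 3 ≠ 1 ∧ l ≤ x) ∨ (l % 3 = 1 ∧ yy x < (l : ℝ) ∧ 2 * l ≤ x)) → r l = 0 := by
    intro l hl
    have h : ¬ ∃ m ∈ Sv x K, f m = l := by
      rcases hl with hl | hl
      · exact hr0 l (Or.inr hl.1)
      · exact hr0 l (Or.inl hl.2.2)
    have h' : ¬ (l % 3 = 1 ∧ (l : ℝ) ≤ yy x) := by
      rintro ⟨h3, h4⟩
      rcases hl with hl | hl
      · exact hl.1 h3
      · exact absurd h4 (not_le.2 hl.2.1)
    simp only [r, h, dif_neg, not_false_eq_true]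
    rw [if_neg h']
  obtain ⟨n, hn1, hn2, hn3⟩ := crt x r
  set P : ℕ := ∏ l ∈ Pr x, l with hPdef
  have hP0 : 0 < P := Finset.prod_pos fun i hi => ((mem_Pr x i).1 hi).1.pos
  have hP0' : (0 : ℝ) < P := by exact_mod_cast hP0
  have hn0 : 0 < n := lt_of_lt_of_le hP0 hn1
  have hn0' : (0 : ℝ) < n := by exact_mod_cast hn0
  -- lower bound for `log n`
  have hlogP : (x : ℝ) / 100 ≤ Real.log P := by
    have h1 := Pr_ge x (by omega) S hSm
    rw [← hPdef] at h1
    have h2 : L / 2 ≤ Real.log ((x : ℝ) / 2) := by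
      rw [Real.log_div hx0.ne' two_ne_zero]
      have h3 : Real.log 2 ≤ Real.log 100 := Real.log_le_log two_pos (by norm_num)
      linarith
    calc (x : ℝ) / 100 ≤ (x : ℝ) / 96 := by
          apply div_le_div_of_nonneg_left hx0.le (by norm_num) (by norm_num)
      _ = (x : ℝ) / (48 * L) * (L / 2) := by field_simp; norm_num
      _ ≤ (S.card : ℝ) * Real.log ((x : ℝ) / 2) :=
          mul_le_mul hSc h2 (by positivity) (Nat.cast_nonneg _)
      _ ≤ Real.log P := h1
  have hlogn1 : (x : ℝ) / 100 ≤ Real.log n :=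
    hlogP.trans (Real.log_le_log hP0' (by exact_mod_cast hn1))
  have hlogn2 : Real.log n ≤ 2 * x := by
    have h1 : (n : ℝ) ≤ 2 * 4 ^ x := by
      have : n ≤ 2 * 4 ^ x := hn2.le.trans (Nat.mul_le_mul_left 2 (Pr_le x))
      exact_mod_cast this
    have h2 := Real.log_le_log hn0' h1
    rw [Real.log_mul two_ne_zero (by positivity), Real.log_pow,
      show (4 : ℝ) = 2 ^ 2 by norm_num, Real.log_pow] at h2
    have h4 : (6 : ℝ) ≤ x := by exact_mod_cast hx6
    push_cast at h2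
    nlinarith
  -- `2 x log x < n`
  have hxn : 2 * (x * L) < (n : ℝ) := by
    have h1 : Real.log (2 * (x * L)) < Real.log n := by
      rw [Real.log_mul two_ne_zero (by positivity), Real.log_mul hx0.ne' hL0.ne', ← hL, ← hL2]
      linarith
    exact (Real.log_lt_log_iff (by positivity) hn0').1 h1
  have hxn' : 2 * (x : ℝ) < n := by nlinarith
  have hxn2 : 2 * x < n := by exact_mod_cast hxn'
  refine ⟨n, by omega, ?_⟩
  intro k hk0 hk
  -- sizes
  have hln0 : 0 < Real.log n := lt_of_lt_of_le (by positivity) hlogn1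
  have hlln1 : L / 2 ≤ Real.log (Real.log n) := by
    have h1 := Real.log_le_log (by positivity : (0 : ℝ) < (x : ℝ) / 100) hlogn1
    rw [Real.log_div hx0.ne' (by norm_num), ← hL] at h1
    linarith
  have hlln0 : 0 < Real.log (Real.log n) := by linarith
  have hlln2 : Real.log (Real.log n) ≤ 2 * L := by
    have h1 := Real.log_le_log hln0 hlogn2
    rw [Real.log_mul two_ne_zero hx0.ne', ← hL] at h1
    linarith
  have hllln : L2 / 2 ≤ Real.log (Real.log (Real.log n)) := by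
    have h1 := Real.log_le_log (by positivity : (0 : ℝ) < L / 2) hlln1
    rw [Real.log_div hL0.ne' two_ne_zero, ← hL2] at h1
    linarith
  have hllln0 : 0 < Real.log (Real.log (Real.log n)) := by linarith
  have hllln2 : Real.log (Real.log (Real.log n)) ≤ 2 * L2 := by
    have h1 := Real.log_le_log hlln0 hlln2
    rw [Real.log_mul two_ne_zero hL0.ne', ← hL2] at h1
    linarith
  have hl4 : Real.log (Real.log (Real.log (Real.log n))) ≤ 2 * L3 := by
    have h1 := Real.log_le_log hllln0 hllln2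
    rw [Real.log_mul two_ne_zero hL20.ne', ← hL3] at h1
    linarith
  have hden : L2 * √L2 / 4 ≤ Real.log (Real.log (Real.log n)) ^ (3 / 2 : ℝ) := by
    set w : ℝ := Real.log (Real.log (Real.log n)) with hw
    have e : w ^ (3 / 2 : ℝ) = w * √w := by
      rw [Real.sqrt_eq_rpow, show (3 / 2 : ℝ) = 1 + 1 / 2 by norm_num, Real.rpow_add hllln0,
        Real.rpow_one]
    rw [e]
    have h1 : √L2 / 2 ≤ √w := by
      apply Real.le_sqrt_of_sq_le
      rw [div_pow, Real.sq_sqrt hL20.le]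
      linarith
    calc L2 * √L2 / 4 = (L2 / 2) * (√L2 / 2) := by ring
      _ ≤ w * √w := mul_le_mul hllln h1 (by positivity) hllln0.le
  have hkA : (k : ℝ) ≤ c₁ / 2 * A := by
    have h1 : Real.log n * Real.log (Real.log n) * Real.log (Real.log (Real.log (Real.log n))) ≤
        (2 * x) * (2 * L) * (2 * L3) := by
      calc Real.log n * Real.log (Real.log n) * Real.log (Real.log (Real.log (Real.log n))) ≤
            Real.log n * Real.log (Real.log n) * (2 * L3) :=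
            mul_le_mul_of_nonneg_left hl4 (by positivity)
        _ ≤ (2 * x) * (2 * L) * (2 * L3) :=
            mul_le_mul_of_nonneg_right (mul_le_mul hlogn2 hlln2 hlln0.le (by positivity))
              (by positivity)
    have h2 : Real.log n * Real.log (Real.log n) * Real.log (Real.log (Real.log (Real.log n))) /
        Real.log (Real.log (Real.log n)) ^ (3 / 2 : ℝ) ≤
        (2 * x) * (2 * L) * (2 * L3) / (L2 * √L2 / 4) :=
      div_le_div₀ (by positivity) h1 (by positivity) hden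
    calc (k : ℝ) ≤ c₁ / 1280 * (Real.log n * Real.log (Real.log n) *
          Real.log (Real.log (Real.log (Real.log n))) /
          Real.log (Real.log (Real.log n)) ^ (3 / 2 : ℝ)) := hk
      _ ≤ c₁ / 1280 * ((2 * x) * (2 * L) * (2 * L3) / (L2 * √L2 / 4)) :=
          mul_le_mul_of_nonneg_left h2 (by positivity)
      _ = c₁ / 2 * A := by
          rw [hA, hΛ]
          field_simp
          ring
  have hkK : k ≤ K := by
    have h3 : (k : ℝ) < K + 1 := by
      have : c₁ / 2 * A ≤ c₁ * A := by nlinarith [mul_pos hc0 hA0]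
      linarith
    have h4 : k < K + 1 := by exact_mod_cast h3
    omega
  have h2k : 2 * k < n := by
    have h1 : (2 : ℝ) * k < n := by
      have h2 : (k : ℝ) ≤ K := by exact_mod_cast hkK
      linarith
    exact_mod_cast h1
  refine ⟨h2k.le, ?_⟩
  have hval : ((k ^ 2 + k * (n - k) + (n - k) ^ 2 : ℕ) : ℤ) = (n : ℤ) ^ 2 - n * k + k ^ 2 := by
    have hkn : k ≤ n := by omega
    push_cast [Nat.cast_sub hkn]
    ring
  -- every prime factor `≤ x` is bad
  have key : ∀ l : ℕ, l.Prime → l ≤ x → (l : ℤ) ∣ (n : ℤ) ^ 2 - n * k + k ^ 2 →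
      ¬ (k ^ 2 + k * (n - k) + (n - k) ^ 2).Prime := by
    intro l hl hlx hd hpr
    rw [← hval] at hd
    have hd' : l ∣ k ^ 2 + k * (n - k) + (n - k) ^ 2 := by exact_mod_cast hd
    have h1 := (Nat.prime_dvd_prime_iff_eq hl hpr).1 hd'
    have h2 : x < n - k := by omega
    have h3 : n - k ≤ (n - k) ^ 2 := Nat.le_self_pow two_ne_zero _
    have h4 : (n - k) ^ 2 ≤ k ^ 2 + k * (n - k) + (n - k) ^ 2 := Nat.le_add_left _ _
    omega
  by_cases hkS : k ∈ Sv x K
  · obtain ⟨h1, h2, h3⟩ := hSm _ (hf1 k hkS)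
    refine key (f k) h1 h3 ?_
    have h4 := hn3 (f k) h1 h3
    rw [hr1 k hkS] at h4
    obtain ⟨s, hs⟩ := (Nat.modEq_iff_dvd.1 h4)
    obtain ⟨t, ht⟩ := hρ (f k) h1 (hS3 _ (hf1 k hkS))
    have h5 : (n : ℤ) = k * ρ (f k) - (f k : ℤ) * s := by
      push_cast at hs
      linarith
    have h6 : (n : ℤ) ^ 2 - n * k + k ^ 2 = (k : ℤ) ^ 2 * ((ρ (f k) : ℤ) ^ 2 - ρ (f k) + 1) +
        (f k : ℤ) * (s * ((f k : ℤ) * s - 2 * (k * ρ (f k)) + k)) := by
      rw [h5]
      ring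
    rw [h6, ht]
    exact Dvd.dvd.add (Dvd.dvd.mul_left (dvd_mul_right _ _) _) (dvd_mul_right _ _)
  · unfold Sv at hkS
    rw [mem_filter] at hkS
    have h0 : k ∈ Icc 1 K := mem_Icc.2 ⟨hk0, hkK⟩
    by_cases hA1 : ∀ l : ℕ, l.Prime → ((l % 3 ≠ 1 ∧ l ≤ x) ∨ (l % 3 = 1 ∧ yy x < (l : ℝ) ∧ 2 * l ≤ x)) →
        ¬ l ∣ k
    · have h1 : ∃ l : ℕ, l.Prime ∧ l % 3 = 1 ∧ (l : ℝ) ≤ yy x ∧ (l : ℤ) ∣ (k : ℤ) ^ 2 - k + 1 := by
        by_contra hcon
        apply hkS
        refine ⟨h0, hA1, ?_⟩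
        intro l hl hl3 hly hc
        exact hcon ⟨l, hl, hl3, hly, hc⟩
      obtain ⟨l, hl, hl3, hly, hc⟩ := h1
      obtain ⟨hlx, hrl⟩ := hr2 l hl3 hly
      refine key l hl (by omega) ?_
      have h4 := hn3 l hl (by omega)
      rw [hrl] at h4
      obtain ⟨s, hs⟩ := (Nat.modEq_iff_dvd.1 h4)
      obtain ⟨t, ht⟩ := hc
      have h5 : (n : ℤ) = 1 - (l : ℤ) * s := by
        push_cast at hs
        linarith
      have h6 : (n : ℤ) ^ 2 - n * k + k ^ 2 = ((k : ℤ) ^ 2 - k + 1) +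
          (l : ℤ) * (s * ((l : ℤ) * s - 2 + k)) := by
        rw [h5]
        ring
      rw [h6, ht]
      exact Dvd.dvd.add (dvd_mul_right _ _) (dvd_mul_right _ _)
    · push Not at hA1
      obtain ⟨l, hl, hlc, hlk⟩ := hA1
      have hlx : l ≤ x := by
        rcases hlc with h | h
        · exact h.2
        · omega
      refine key l hl hlx ?_
      have h4 := hn3 l hl hlx
      rw [hr3 l hlc] at h4
      have h5 : l ∣ n := (Nat.modEq_zero_iff_dvd).1 h4
      have h6 : (l : ℤ) ∣ n := by exact_mod_cast h5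
      have h7 : (l : ℤ) ∣ k := by exact_mod_cast hlk
      have h8 : (l : ℤ) ∣ (n : ℤ) ^ 2 := dvd_pow h6 two_ne_zero
      have h9 : (l : ℤ) ∣ (k : ℤ) ^ 2 := dvd_pow h7 two_ne_zero
      exact Dvd.dvd.add (dvd_sub h8 (Dvd.dvd.mul_right h6 _)) h9

end Pool.Agent.Helper7.LQ
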